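import Pool.Agent.H70.NC.Targets

/-! Module NUM of the board `nc_modules`. -/

set_option autoImplicit false

namespace Pool.Agent.H5.NC

open Finset Filter Pool.Agent.H70.NC

theorem num_exp : Real.exp (-(3 / 2)) ≤ 1 / 4 := by
  have h1 : Real.exp 3 = Real.exp 1 ^ 3 := by
    rw [← Real.exp_nat_mul]
    norm_num
  have h2 : Real.exp (3 / 2) ^ 2 = Real.exp 3 := by
    rw [← Real.exp_nat_mul]
    norm_num
  have h3 := Real.exp_one_gt_d9
  have h4 : (16 : ℝ) < Real.exp 3 := by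
    rw [h1]
    have : (2.7 : ℝ) ^ 3 ≤ Real.exp 1 ^ 3 := pow_le_pow_left₀ (by norm_num) (by linarith) 3
    have h5 : (16 : ℝ) < (2.7 : ℝ) ^ 3 := by norm_num
    linarith
  have h6 : 4 < Real.exp (3 / 2) := by
    have h0 := Real.exp_pos (3 / 2 : ℝ)
    nlinarith
  rw [Real.exp_neg, ← one_div]
  exact one_div_le_one_div_of_le (by norm_num) h6.le

theorem num_lin (t : ℕ) (ht : 5 ≤ t) : 4 * t + 3 ≤ 2 ^ t := by
  induction t, ht using Nat.le_induction with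
  | base => norm_num
  | succ t ht ih =>
    rw [pow_succ]
    omega

theorem num_lin2 (n : ℕ) (hn : 3 ≤ n) : n + 3 ≤ 2 ^ n - 2 ^ n / 4 := by
  induction n, hn using Nat.le_induction with
  | base => norm_num
  | succ n hn ih =>
    rw [pow_succ]
    omega

theorem num_ (h : T_ERD) : T_NUM := by
  intro k
  filter_upwards [h k, eventually_ge_atTop 100] with n hE hn l T A δ hl hT hδ0 hδ hA
  obtain ⟨hTp, hErr⟩ := hE l T hl hT
  refine ⟨hTp, ?_⟩
  have h2n : (0 : ℝ) < 2 ^ n := by positivity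
  -- the natural inequality 4 (A + n) ≤ 2 ^ n
  have hAn : 4 * (A + n) ≤ 2 ^ n := by
    have h1 : δ ^ 2 * 2 ^ n ≤ (1 / 2) ^ 2 * 2 ^ n :=
      mul_le_mul_of_nonneg_right (pow_le_pow_left₀ hδ0.le hδ 2) h2n.le
    have h2 : 4 * ((A : ℝ) + n) ≤ 2 ^ n := by nlinarith
    exact_mod_cast h2
  have hAn2 : A + n ≤ 2 ^ n / 4 := by omega
  have hl2 := num_lin2 n (by omega)
  have hExp1 : A + 1 + n + (n + 2) ≤ 2 ^ n := by omega
  have hq : (0 : ℝ) < 1 / 2 ^ (n + 2) := by positivity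
  -- first term
  have t1 : (2 : ℝ) ^ (A + 1) * (2 ^ n * (2 ^ (T + 1) *
      errD (Rw n l) (Yq l) (2 ^ (T + 1)) (pw l) (2 ^ (l - n)) (pq l) k)) ≤ 1 / 2 ^ (n + 2) := by
    have h1 : (2 : ℝ) ^ (T + 1) *
        errD (Rw n l) (Yq l) (2 ^ (T + 1)) (pw l) (2 ^ (l - n)) (pq l) k ≤ 1 / 2 ^ 2 ^ (l / 8) := by
      calc (2 : ℝ) ^ (T + 1) * errD (Rw n l) (Yq l) (2 ^ (T + 1)) (pw l) (2 ^ (l - n)) (pq l) k
          ≤ 2 ^ (T + 1) * (1 / 2 ^ (T + 1) / 2 ^ 2 ^ (l / 8)) :=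
            mul_le_mul_of_nonneg_left hErr (by positivity)
        _ = 1 / 2 ^ 2 ^ (l / 8) := by
            field_simp
    have h2 : (1 : ℝ) / 2 ^ 2 ^ (l / 8) ≤ 1 / 2 ^ (2 ^ n) := by
      refine one_div_le_one_div_of_le (by positivity) ?_
      exact pow_le_pow_right₀ (by norm_num) (Nat.pow_le_pow_right (by norm_num) (by omega))
    calc (2 : ℝ) ^ (A + 1) * (2 ^ n * (2 ^ (T + 1) *
          errD (Rw n l) (Yq l) (2 ^ (T + 1)) (pw l) (2 ^ (l - n)) (pq l) k))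
        ≤ 2 ^ (A + 1) * (2 ^ n * (1 / 2 ^ (2 ^ n))) := by
          refine mul_le_mul_of_nonneg_left (mul_le_mul_of_nonneg_left (h1.trans h2) ?_) ?_ <;>
            positivity
      _ = 2 ^ (A + 1 + n) / 2 ^ (2 ^ n) := by
          rw [pow_add 2 (A + 1) n]
          ring
      _ ≤ 1 / 2 ^ (n + 2) := by
          rw [div_le_div_iff₀ (by positivity) (by positivity), ← pow_add, one_mul]
          exact pow_le_pow_right₀ (by norm_num) hExp1
  -- second term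
  have t2 : (2 : ℝ) ^ (A + 1) * (2 ^ n * 2 ^ (l / 2) * (1 - pq l) ^ 2 ^ (l / 2)) ≤
      1 / 2 ^ (n + 2) := by
    set m := l / 2 - l / 6 - 6 with hm
    have hm1 : l / 2 = l / 6 + 6 + m := by omega
    have hq1 : pq l ≤ 1 := by
      unfold pq
      have : (1 : ℝ) ≤ pw l := by
        unfold pw
        exact_mod_cast Nat.one_le_two_pow
      rw [div_le_one (by positivity)]
      linarith
    have h1 : (1 - pq l) ^ 2 ^ (l / 2) ≤ 1 / 2 ^ (2 ^ m) := by
      have h2 : 1 - pq l ≤ Real.exp (-pq l) := Real.one_sub_le_exp_neg _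
      have h3 : (1 - pq l) ^ 2 ^ (l / 2) ≤ Real.exp (-pq l) ^ 2 ^ (l / 2) :=
        pow_le_pow_left₀ (by linarith) h2 _
      refine h3.trans ?_
      rw [← Real.exp_nat_mul]
      have h4 : (((2 ^ (l / 2) : ℕ) : ℝ)) * -pq l = -((2 ^ m : ℕ) : ℝ) := by
        unfold pq pw
        rw [hm1]
        push_cast
        rw [pow_add, pow_add]
        field_simp
        norm_num
      rw [h4, Real.exp_neg, ← one_div]
      refine one_div_le_one_div_of_le (by positivity) ?_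
      have h5 : (2 : ℝ) ≤ Real.exp 1 := by
        have := Real.exp_one_gt_d9
        linarith
      have h6 : Real.exp (((2 ^ m : ℕ) : ℝ)) = Real.exp 1 ^ (2 ^ m) := by
        rw [← Real.exp_nat_mul, mul_one]
      rw [h6]
      exact pow_le_pow_left₀ (by norm_num) h5 _
    have hml : l / 4 ≤ m := by omega
    have hl4 := num_lin (l / 4) (by omega)
    have h7 : 2 ^ n * 2 ≤ 2 ^ (l / 4) := by
      rw [← pow_succ]
      exact Nat.pow_le_pow_right (by norm_num) (by omega)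
    have h8 : 2 ^ (l / 4) ≤ 2 ^ m := Nat.pow_le_pow_right (by norm_num) hml
    have h9 : A + 1 + n + l / 2 + (n + 2) ≤ 2 ^ m := by omega
    calc (2 : ℝ) ^ (A + 1) * (2 ^ n * 2 ^ (l / 2) * (1 - pq l) ^ 2 ^ (l / 2))
        ≤ 2 ^ (A + 1) * (2 ^ n * 2 ^ (l / 2) * (1 / 2 ^ (2 ^ m))) := by
          refine mul_le_mul_of_nonneg_left (mul_le_mul_of_nonneg_left h1 ?_) ?_ <;> positivity
      _ = 2 ^ (A + 1 + n + l / 2) / 2 ^ (2 ^ m) := by
          rw [pow_add 2 (A + 1 + n) (l / 2), pow_add 2 (A + 1) n]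
          ring
      _ ≤ 1 / 2 ^ (n + 2) := by
          rw [div_le_div_iff₀ (by positivity) (by positivity), ← pow_add, one_mul]
          exact pow_le_pow_right₀ (by norm_num) h9
  -- third term
  have t3 : (2 : ℝ) ^ (A + 1) * Real.exp (2 ^ n * (-2 * δ ^ 2 + T * pw l / 2 ^ (l / 2))) ≤
      1 / 2 ^ (n + 2) := by
    have hT1 : T < 2 ^ (l / 16 + 1) := by
      by_contra hcon
      have h1 : (2 ^ (l / 16 + 1)) ^ 16 ≤ T ^ 16 := Nat.pow_le_pow_left (not_lt.1 hcon) 16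
      rw [← pow_mul] at h1
      have h2 : 2 ^ ((l / 16 + 1) * 16) ≤ 2 ^ l := h1.trans hT
      have h3 := (Nat.pow_le_pow_iff_right (by norm_num : 1 < 2)).1 h2
      omega
    have h4 : T * pw l * 2 ^ n * 2 ≤ 2 ^ (l / 2) := by
      have h5 : T * pw l * 2 ^ n * 2 ≤ 2 ^ (l / 16 + 1) * 2 ^ (l / 6) * 2 ^ n * 2 := by
        unfold pw
        gcongr
      have h6 : 2 ^ (l / 16 + 1) * 2 ^ (l / 6) * 2 ^ n * 2 = 2 ^ (l / 16 + 1 + l / 6 + n + 1) := by
        rw [← pow_add, ← pow_add, ← pow_succ]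
      rw [h6] at h5
      exact h5.trans (Nat.pow_le_pow_right (by norm_num) (by omega))
    have h5 : (T : ℝ) * pw l * 2 ^ n * 2 ≤ 2 ^ (l / 2) := by exact_mod_cast h4
    have hn1 : (1 : ℝ) ≤ n := by
      have : (100 : ℝ) ≤ n := by exact_mod_cast hn
      linarith
    have hA0 : (0 : ℝ) ≤ A := Nat.cast_nonneg A
    have h6 : 2 ^ n * ((T : ℝ) * pw l / 2 ^ (l / 2)) ≤ δ ^ 2 * 2 ^ n / 2 := by
      have h7 : 2 ^ n * ((T : ℝ) * pw l / 2 ^ (l / 2)) ≤ 1 / 2 := by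
        rw [← mul_div_assoc, div_le_iff₀ (by positivity)]
        linarith
      linarith
    have h8 : 2 ^ n * (-2 * δ ^ 2 + T * pw l / 2 ^ (l / 2)) ≤ ((A + n : ℕ) : ℝ) * (-(3 / 2)) := by
      push_cast
      rw [mul_add]
      linarith
    calc (2 : ℝ) ^ (A + 1) * Real.exp (2 ^ n * (-2 * δ ^ 2 + T * pw l / 2 ^ (l / 2)))
        ≤ 2 ^ (A + 1) * Real.exp (((A + n : ℕ) : ℝ) * (-(3 / 2))) :=
          mul_le_mul_of_nonneg_left (Real.exp_le_exp.2 h8) (by positivity)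
      _ = 2 ^ (A + 1) * Real.exp (-(3 / 2)) ^ (A + n) := by rw [Real.exp_nat_mul]
      _ ≤ 2 ^ (A + 1) * (1 / 4) ^ (A + n) :=
          mul_le_mul_of_nonneg_left (pow_le_pow_left₀ (Real.exp_pos _).le num_exp _)
            (by positivity)
      _ = 2 ^ (A + 1) / 2 ^ (2 * (A + n)) := by
          rw [one_div, inv_pow, pow_mul]
          norm_num
          rfl
      _ ≤ 1 / 2 ^ (n + 2) := by
          rw [div_le_div_iff₀ (by positivity) (by positivity), ← pow_add, one_mul]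
          exact pow_le_pow_right₀ (by norm_num) (by omega)
  have hsum : bnd k n l T A δ = 2 ^ (A + 1) * (2 ^ n * (2 ^ (T + 1) *
      errD (Rw n l) (Yq l) (2 ^ (T + 1)) (pw l) (2 ^ (l - n)) (pq l) k)) +
      2 ^ (A + 1) * (2 ^ n * 2 ^ (l / 2) * (1 - pq l) ^ 2 ^ (l / 2)) +
      2 ^ (A + 1) * Real.exp (2 ^ n * (-2 * δ ^ 2 + T * pw l / 2 ^ (l / 2))) := by
    unfold bnd
    ring
  have h4 : (1 : ℝ) / 2 ^ n = 4 * (1 / 2 ^ (n + 2)) := by
    rw [pow_add]
    field_simp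
    norm_num
  rw [hsum, h4]
  linarith

end Pool.Agent.H5.NC
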