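import Pool.Agent.H70.NC.Targets

/-! Module QCT of the board `nc_modules`. -/

set_option autoImplicit false

namespace Pool.Agent.H5.NC

open Finset Pool.Agent.H70.NC Pool.Agent.H68.AC

theorem qc_map {X B B' : Type} (Φ : B → B') {E : ℕ} {g : (X → Bool) → B} (h : QC E g) :
    ∀ E' : ℕ, E ≤ E' → QC E' fun y => Φ (g y) := by
  induction h with
  | leaf D b =>
    intro E' _
    exact QC.leaf E' (Φ b)
  | node D r g₀ g₁ h₀ h₁ ih₀ ih₁ =>
    intro E' hE'
    obtain ⟨D', rfl⟩ : ∃ D', E' = D' + 1 := ⟨E' - 1, by omega⟩
    have h := QC.node D' r (fun y => Φ (g₀ y)) (fun y => Φ (g₁ y)) (ih₀ D' (by omega))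
      (ih₁ D' (by omega))
    have he : (fun y : X → Bool => Φ (cond (y r) (g₁ y) (g₀ y))) =
        fun y => cond (y r) (Φ (g₁ y)) (Φ (g₀ y)) := by
      funext y
      cases y r <;> rfl
    rw [he]
    exact h

theorem qc_update {X M : Type} [DecidableEq M] (m₀ : M) (T₀ : DT X) :
    ∀ d : ℕ, T₀.depth ≤ d → ∀ (E : ℕ) (g : (X → Bool) → M → Bool), QC E g →
      QC (d + E) fun y => Function.update (g y) m₀ (T₀.eval y) := by
  induction T₀ with
  | leaf b =>
    intro d _ E g hg
    exact qc_map (fun v : M → Bool => Function.update v m₀ b) hg (d + E) (by omega)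
  | node v l r ihl ihr =>
    intro d hd E g hg
    have hd' : max l.depth r.depth + 1 ≤ d := hd
    obtain ⟨d', rfl⟩ : ∃ d', d = d' + 1 := ⟨d - 1, by omega⟩
    have hlr : max l.depth r.depth ≤ d' := by omega
    have hl : l.depth ≤ d' := le_trans (le_max_left _ _) hlr
    have hr : r.depth ≤ d' := le_trans (le_max_right _ _) hlr
    have h := QC.node (d' + E) v _ _ (ihl d' hl E g hg) (ihr d' hr E g hg)
    have he : (fun y : X → Bool => Function.update (g y) m₀ ((DT.node v l r).eval y)) =
        fun y => cond (y v) (Function.update (g y) m₀ (r.eval y))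
          (Function.update (g y) m₀ (l.eval y)) := by
      funext y
      show Function.update (g y) m₀ (cond (y v) (r.eval y) (l.eval y)) = _
      cases y v <;> rfl
    rw [he, show d' + 1 + E = d' + E + 1 by omega]
    exact h

theorem qct : T_QCT := by
  intro X M _ _ D T hT
  have key : ∀ F : Finset M, QC (F.card * D) fun y m => if m ∈ F then (T m).eval y else false := by
    intro F
    induction F using Finset.induction_on with
    | empty =>
      simpa using (QC.leaf 0 (fun _ : M => false) : QC (X := X) 0 _)
    | insert a F ha ih =>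
      have h := qc_update a (T a) D (hT a) (F.card * D) _ ih
      have he : (fun (y : X → Bool) (m : M) => if m ∈ insert a F then (T m).eval y else false) =
          fun y => Function.update (fun m => if m ∈ F then (T m).eval y else false) a
            ((T a).eval y) := by
        funext y m
        by_cases hm : m = a
        · subst hm
          simp
        · simp [hm]
      rw [he, Finset.card_insert_of_notMem ha, show (F.card + 1) * D = D + F.card * D by ring]
      exact h
  have h := key univ
  simpa using h

end Pool.Agent.H5.NC
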